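import Mathlib
import Pool.Agent.W844.GP.Defs

set_option autoImplicit false

open Finset MeasureTheory ProbabilityTheory Filter Topology
open scoped ENNReal

namespace Pool.Agent.W924.GP

open Pool.Agent.W844.VG (V stp nm)
open Pool.Agent.W844.GP

/-- the sigma-algebra of the coordinates in `S` -/
@[reducible] def sg {d : ℕ} (S : Set (V d)) : MeasurableSpace (V d → ℝ) :=
  ⨆ x ∈ S, MeasurableSpace.comap (fun w : V d → ℝ => w x) inferInstance

theorem meas_sg {d : ℕ} {α : Type} [MeasurableSpace α] (f : (V d → ℝ) → α) (S : Set (V d))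
    (hf : Measurable f) (hS : DependsOn f S) : Measurable[sg S] f := by
  classical
  have h1 : f = f ∘ (fun w : V d → ℝ => fun x => if x ∈ S then w x else 0) := by
    funext w
    apply hS
    intro i hi
    simp [hi]
  rw [h1]
  refine @Measurable.comp _ _ _ (sg S) _ _ _ _ hf ?_
  refine @measurable_pi_lambda _ _ _ (sg S) _ _ ?_
  intro x
  by_cases hx : x ∈ S
  · simp only [hx, if_true]
    rw [measurable_iff_comap_le]
    exact le_iSup₂_of_le x hx le_rfl
  · simp only [hx, if_false]
    exact @measurable_const _ _ _ (sg S) _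

theorem indep_sg {d : ℕ} (ν : Measure ℝ) [IsProbabilityMeasure ν] (S S' : Set (V d))
    (h : Disjoint S S') : Indep (sg S) (sg S') (law ν d) := by
  unfold sg law
  apply indep_iSup_of_disjoint
  · intro x
    exact (measurable_pi_apply x).comap_le
  · exact iIndepFun_infinitePi (P := fun _ : V d => ν) (X := fun _ => id) (fun _ => measurable_id)
  · exact h

theorem T_IND : S_IND := by
  intro d ν _ α β _ _ f g S S' hf hg hfS hgS hd
  rw [IndepFun_iff_Indep]
  exact indep_of_indep_of_le_left (indep_of_indep_of_le_right (indep_sg ν S S' hd)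
    (meas_sg g S' hg hgS).comap_le) (meas_sg f S hf hfS).comap_le

theorem T_INDK : S_INDK := by
  intro d ν _ ι s E S
  classical
  induction s using Finset.induction_on with
  | empty =>
    intro _ _ _
    simp [law]
  | insert k s hk ih =>
    intro h1 h2 h3
    have h1' := h1 k (mem_insert_self _ _)
    have ih' := ih (fun j hj => h1 j (mem_insert_of_mem hj)) (fun j hj => h2 j (mem_insert_of_mem hj))
      (fun j hj j' hj' => h3 j (mem_insert_of_mem hj) j' (mem_insert_of_mem hj'))
    have hm : MeasurableSet (⋂ j ∈ s, E j) :=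
      Finset.measurableSet_biInter _ (fun j hj => h1 j (mem_insert_of_mem hj))
    have hI := T_IND d ν Prop Prop (fun w => w ∈ E k) (fun w => w ∈ ⋂ j ∈ s, E j)
      (S k) (⋃ j ∈ s, S j) (measurable_mem.2 h1') (measurable_mem.2 hm)
      (h2 k (mem_insert_self _ _)) (by
        intro w w' hw
        simp only [Set.mem_iInter, eq_iff_iff]
        refine forall₂_congr fun j hj => ?_
        exact (h2 j (mem_insert_of_mem hj) (fun x hx => hw x (by
          simp only [Set.mem_iUnion]; exact ⟨j, hj, hx⟩))).to_iff) (by
        rw [Set.disjoint_iUnion₂_right]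
        intro j hj
        exact h3 k (mem_insert_self _ _) j (mem_insert_of_mem hj) (fun h => hk (h ▸ hj)))
    have := hI.measure_inter_preimage_eq_mul {True} {True} (measurableSet_singleton _)
      (measurableSet_singleton _)
    have e1 : (fun w => w ∈ E k) ⁻¹' {True} = E k := by ext w; simp
    have e2 : (fun w => w ∈ ⋂ j ∈ s, E j) ⁻¹' {True} = ⋂ j ∈ s, E j := by ext w; simp
    rw [e1, e2] at this
    rw [prod_insert hk, ← ih', set_biInter_insert, this]

end Pool.Agent.W924.GP
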